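import Mathlib

/-!
# Families of abelian tensor categories over the number fields
-/

set_option autoImplicit false

open CategoryTheory Limits Abelian

namespace Pool.Agent.X264.EX

universe t v u

/-- An exact functor. -/
structure IsExactFunctor {C : Type u} [Category.{v} C] [Abelian C] {D : Type u} [Category.{v} D]
    [Abelian D] (F : C ⥤ D) : Prop where
  additive : F.Additive
  limits : PreservesFiniteLimits F
  colimits : PreservesFiniteColimits F

/-- The identity functor is naturally a direct summand of `F`. -/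
def IdIsSummand {C : Type u} [Category.{v} C] (F : C ⥤ C) : Prop :=
  ∃ (η : 𝟭 C ⟶ F) (r : F ⟶ 𝟭 C), η ≫ r = 𝟙 _

/-- The objects of finite length: those with a finite filtration with simple quotients. -/
inductive FiniteLength {C : Type u} [Category.{v} C] [Abelian C] : C → Prop
  | zero (W : C) : IsZero W → FiniteLength W
  | ext (S : ShortComplex C) : S.ShortExact → Simple S.X₁ → FiniteLength S.X₃ → FiniteLength S.X₂

/-- `Ext^n(V, W) = 0`. -/
def ExtZero {C : Type u} [Category.{v} C] [Abelian C] (V W : C) (n : ℕ) : Prop :=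
  letI : HasExt.{max u v} C := HasExt.standard C
  ∀ x : Ext.{max u v} V W n, x = 0

/-- Abelian categories `Cat k` of representations of the Galois groups of the fields `k` of `K`,
with the functors of restriction and induction for the finite extensions, the trivial
representation `one`, the functors `tens V = V ⊗ -`, the duals, the exact functors
`w : V ↦ W_0 V` (the part of weights at most `0`) with their inclusions `ι`, and the objects which
are pure of weight `m`. -/
structure Family (K : Type t) [Preorder K] where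
  Cat : K → Type u
  [cat : ∀ k, Category.{v} (Cat k)]
  [ab : ∀ k, Abelian (Cat k)]
  Res : ∀ {k L : K}, k ≤ L → (Cat k ⥤ Cat L)
  Ind : ∀ {k L : K}, k ≤ L → (Cat L ⥤ Cat k)
  one : ∀ k, Cat k
  tens : ∀ {k}, Cat k → (Cat k ⥤ Cat k)
  dual : ∀ {k}, Cat k → Cat k
  w : ∀ k, Cat k ⥤ Cat k
  ι : ∀ k, w k ⟶ 𝟭 (Cat k)
  Pure : ∀ {k}, ℤ → Cat k → Prop

attribute [instance] Family.cat Family.ab

namespace Family

variable {K : Type t} [Preorder K] (T : Family.{t, v, u} K)

/-- Restriction and induction are exact; `V → Ind Res V → V` and `V → Res Ind V → V`. -/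
structure HasInduction : Prop where
  res_exact : ∀ {k L : K} (h : k ≤ L), IsExactFunctor (T.Res h)
  ind_exact : ∀ {k L : K} (h : k ≤ L), IsExactFunctor (T.Ind h)
  ind_res : ∀ {k L : K} (h : k ≤ L), IdIsSummand (T.Res h ⋙ T.Ind h)
  res_ind : ∀ {k L : K} (h : k ≤ L), IdIsSummand (T.Ind h ⋙ T.Res h)

/-- Tensor products are exact, `V^∨ ⊗ -` is a right adjoint of `V ⊗ -`, and `V ⊗ 1 = V`. -/
structure IsRigid : Prop where
  exact : ∀ {k : K} (V : T.Cat k), IsExactFunctor (T.tens V)
  adj : ∀ {k : K} (V : T.Cat k), Nonempty (T.tens V ⊣ T.tens (T.dual V))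
  unit : ∀ {k : K} (V : T.Cat k), Nonempty ((T.tens V).obj (T.one k) ≅ V)

/-- The functor `V ↦ W_0 V` is exact, `W_0 1 = 1`, the simple objects are pure, and `W_0 V = 0` if
`V` is pure of weight `m > 0`. -/
structure HasWeights : Prop where
  exact : ∀ k, IsExactFunctor (T.w k)
  unit : ∀ k, IsIso ((T.ι k).app (T.one k))
  simple : ∀ {k : K} (V : T.Cat k), Simple V → ∃ m, T.Pure m V
  pos : ∀ {k : K} (V : T.Cat k) (m : ℤ), 0 < m → T.Pure m V → IsZero ((T.w k).obj V)

/-- The formal properties which are used. -/
structure IsMixed : Prop where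
  induction : T.HasInduction
  rigid : T.IsRigid
  weights : T.HasWeights
  finite : ∀ {k : K} (V : T.Cat k), FiniteLength V

/-- `Ext^n(V, W) = 0` for all objects of `Cat k`. -/
def Vanish (k : K) (n : ℕ) : Prop := ∀ V W : T.Cat k, ExtZero V W n

/-- `Ext^2(1, W) = 0` for all simple objects `W` of `Cat k` which are pure of a weight `m ≤ 0`. -/
def SimpleVanish (k : K) : Prop :=
  ∀ W : T.Cat k, Simple W → (∃ m ≤ 0, T.Pure m W) → ExtZero (T.one k) W 2

end Family

end Pool.Agent.X264.EX
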