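import Mathlib

/-!
# Extension groups in abelian categories are effaceable
-/

set_option autoImplicit false
set_option backward.isDefEq.respectTransparency false
set_option backward.defeqAttrib.useBackward true

open CategoryTheory Limits Abelian HomologicalComplex

namespace Pool.Agent.X264.EX

universe w v u

variable {C : Type u} [Category.{v} C] [Abelian C]

/-- the degree zero component of a quasi-isomorphism between complexes in degrees at most zero,
whose target is concentrated in degree zero, is an epimorphism -/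
lemma epi_f {K : CochainComplex C ℤ} [K.IsStrictlyLE 0] {X : C}
    (s : K ⟶ (CochainComplex.singleFunctor C 0).obj X) [QuasiIso s] : Epi (s.f 0) := by
  have h0 : K.d 0 1 = 0 := (K.isZero_of_isStrictlyLE 0 1 (by norm_num)).eq_of_tgt _ _
  have : IsIso (K.iCycles 0) := K.isIso_iCycles 0 1 (by simp) h0
  have h1 : ((CochainComplex.singleFunctor C 0).obj X).d 0 1 = 0 := rfl
  have h2 : ((CochainComplex.singleFunctor C 0).obj X).d (-1) 0 = 0 := rfl
  have : IsIso (((CochainComplex.singleFunctor C 0).obj X).iCycles 0) :=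
    HomologicalComplex.isIso_iCycles _ 0 1 (by simp) h1
  have : IsIso (((CochainComplex.singleFunctor C 0).obj X).homologyπ 0) :=
    HomologicalComplex.isIso_homologyπ _ (-1) 0 (by simp) h2
  have e1 : K.iCycles 0 ≫ s.f 0 = cyclesMap s 0 ≫
      ((CochainComplex.singleFunctor C 0).obj X).iCycles 0 := by simp
  have e2 : K.homologyπ 0 ≫ homologyMap s 0 = cyclesMap s 0 ≫
      ((CochainComplex.singleFunctor C 0).obj X).homologyπ 0 := by simp
  have e3 : Epi (cyclesMap s 0) := by
    have : cyclesMap s 0 = K.homologyπ 0 ≫ homologyMap s 0 ≫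
        inv (((CochainComplex.singleFunctor C 0).obj X).homologyπ 0) := by
      rw [← Category.assoc, e2, Category.assoc, IsIso.hom_inv_id, Category.comp_id]
    rw [this]
    infer_instance
  have e4 : s.f 0 = inv (K.iCycles 0) ≫ cyclesMap s 0 ≫
      ((CochainComplex.singleFunctor C 0).obj X).iCycles 0 := by
    rw [← e1, IsIso.inv_hom_id_assoc]
  rw [e4]
  infer_instance

/-- **Effaceability.** Every element of `Ext^{n+1}(X, Y)` is killed by an epimorphism to `X`. -/
theorem exists_epi [HasExt.{w} C] {X Y : C} {n : ℕ} (x : Ext.{w} X Y (n + 1)) :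
    ∃ (X' : C) (p : X' ⟶ X), Epi p ∧ (Ext.mk₀ p).comp x (zero_add _) = 0 := by
  let := HasDerivedCategory.standard C
  let KX := (CochainComplex.singleFunctor C 0).obj X
  let KY := (CochainComplex.singleFunctor C 0).obj Y
  let f : DerivedCategory.Q.obj KX ⟶ DerivedCategory.Q.obj (KY⟦((n + 1 : ℕ) : ℤ)⟧) :=
    x.hom ≫ (DerivedCategory.Q.commShiftIso ((n + 1 : ℕ) : ℤ)).inv.app KY
  obtain ⟨K, hK, s, hs, g, hg⟩ := DerivedCategory.right_fac_of_isStrictlyLE f 0
  have hqs : QuasiIso s := (DerivedCategory.isIso_Q_map_iff_quasiIso C s).mp hs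
  have hd : ∀ k : ℤ, (ComplexShape.up ℤ).Rel 0 k → 𝟙 (K.X 0) ≫ K.d 0 k = 0 := by
    intro k hk
    have : k = 1 := by simpa using hk.symm
    subst this
    exact (K.isZero_of_isStrictlyLE 0 1 (by norm_num)).eq_of_tgt _ _
  let t : (CochainComplex.singleFunctor C 0).obj (K.X 0) ⟶ K := mkHomFromSingle (𝟙 (K.X 0)) hd
  obtain ⟨p, hp⟩ := (CochainComplex.singleFunctor C 0).map_surjective (t ≫ s)
  refine ⟨K.X 0, p, ?_, ?_⟩
  · -- `p` is an epimorphism
    have := epi_f s
    have h1 : (t ≫ s).f 0 = (singleObjXSelf (ComplexShape.up ℤ) 0 (K.X 0)).hom ≫ s.f 0 := by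
      change t.f 0 ≫ s.f 0 = _
      rw [show t.f 0 = _ from mkHomFromSingle_f (𝟙 (K.X 0)) hd]
      simp
    have : Epi ((t ≫ s).f 0) := by
      rw [h1]
      infer_instance
    rw [← hp] at this
    have h2 : ((CochainComplex.singleFunctor C 0).map p).f 0 =
        (singleObjXSelf (ComplexShape.up ℤ) 0 (K.X 0)).hom ≫ p ≫
          (singleObjXSelf (ComplexShape.up ℤ) 0 X).inv :=
      single_map_f_self (ComplexShape.up ℤ) 0 p
    rw [h2] at this
    have h3 : p = (singleObjXSelf (ComplexShape.up ℤ) 0 (K.X 0)).inv ≫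
        ((singleObjXSelf (ComplexShape.up ℤ) 0 (K.X 0)).hom ≫ p ≫
          (singleObjXSelf (ComplexShape.up ℤ) 0 X).inv) ≫
        (singleObjXSelf (ComplexShape.up ℤ) 0 X).hom := by simp
    rw [h3]
    infer_instance
  · -- the composition is zero
    have h0 : t ≫ g = 0 := by
      ext i
      by_cases hi : i = 0
      · subst hi
        apply IsZero.eq_of_tgt
        change IsZero (KY.X (0 + ((n + 1 : ℕ) : ℤ)))
        exact HomologicalComplex.isZero_single_obj_X _ _ _ _ (by push_cast; omega)
      · apply IsZero.eq_of_src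
        exact HomologicalComplex.isZero_single_obj_X _ _ _ _ hi
    have h1 : DerivedCategory.Q.map ((CochainComplex.singleFunctor C 0).map p) ≫ f = 0 := by
      rw [hp, hg, Functor.map_comp, Category.assoc, IsIso.hom_inv_id_assoc, ← Functor.map_comp, h0,
        Functor.map_zero]
    have h2 : (DerivedCategory.singleFunctor C 0).map p ≫ x.hom = 0 := by
      have h3 : x.hom = f ≫ (DerivedCategory.Q.commShiftIso ((n + 1 : ℕ) : ℤ)).hom.app KY := by
        simp only [f, Category.assoc, Iso.inv_hom_id_app]
        exact (Category.comp_id _).symm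
      rw [h3]
      change (DerivedCategory.Q.map ((CochainComplex.singleFunctor C 0).map p)) ≫ _ = 0
      rw [reassoc_of% h1, zero_comp]
    ext
    rw [Ext.comp_hom, Ext.mk₀_hom, ShiftedHom.mk₀_comp, h2, Ext.zero_hom]

end Pool.Agent.X264.EX
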