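import Pool.Agent.X264.EX.Eff

/-!
# Extension groups, exact functors and natural transformations
-/

set_option autoImplicit false
set_option linter.unusedSectionVars false
set_option backward.isDefEq.respectTransparency false
set_option backward.defeqAttrib.useBackward true

open CategoryTheory Limits Abelian

namespace Pool.Agent.X264.EX

universe w w' w'' v v' v'' u u' u''

section

variable {C : Type u} [Category.{v} C] [Abelian C] [HasExt.{w} C]

/-- the short exact sequence of an epimorphism -/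
noncomputable abbrev kerSeq {X' X : C} (p : X' ⟶ X) : ShortComplex C :=
  ShortComplex.mk (kernel.ι p) p (kernel.condition p)

lemma kerSeq_exact {X' X : C} (p : X' ⟶ X) [Epi p] : (kerSeq p).ShortExact where
  exact := ShortComplex.exact_kernel p
  mono_f := inferInstanceAs (Mono (kernel.ι p))
  epi_g := inferInstanceAs (Epi p)

/-- Every element of positive degree is the product of the class of an extension and of an element
of lower degree. -/
lemma exists_factor {X Y : C} {n : ℕ} (x : Ext.{w} X Y (n + 1)) :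
    ∃ (X' : C) (p : X' ⟶ X) (_ : Epi p) (y : Ext.{w} (kernel p) Y n),
      (kerSeq_exact p).extClass.comp y (add_comm 1 n) = x := by
  obtain ⟨X', p, hp, hx⟩ := exists_epi x
  obtain ⟨y, hy⟩ := Ext.contravariant_sequence_exact₃ (kerSeq_exact p) Y x hx (add_comm 1 n)
  exact ⟨X', p, hp, y, hy⟩

/-- If all the groups `Ext^n` vanish, then so do the groups `Ext^{n+1}`. -/
lemma vanish_succ {n : ℕ} (h : ∀ X Y : C, ∀ x : Ext.{w} X Y n, x = 0) :
    ∀ X Y : C, ∀ x : Ext.{w} X Y (n + 1), x = 0 := by
  intro X Y x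
  obtain ⟨X', p, hp, y, rfl⟩ := exists_factor x
  rw [h _ _ y, Ext.comp_zero]

lemma vanish_of_le {n m : ℕ} (hnm : n ≤ m) (h : ∀ X Y : C, ∀ x : Ext.{w} X Y n, x = 0) :
    ∀ X Y : C, ∀ x : Ext.{w} X Y m, x = 0 := by
  induction m, hnm using Nat.le_induction with
  | base => exact h
  | succ m _ ih => exact vanish_succ ih

end

section

variable {C : Type u} [Category.{v} C] [Abelian C] [HasExt.{w} C]
  {D : Type u'} [Category.{v'} D] [Abelian D] [HasExt.{w'} D]
  {E : Type u''} [Category.{v''} E] [Abelian E] [HasExt.{w''} E]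

/-- A natural transformation between exact functors is natural for the extension groups. -/
theorem map_nat (F G : C ⥤ D) [F.Additive] [PreservesFiniteLimits F] [PreservesFiniteColimits F]
    [G.Additive] [PreservesFiniteLimits G] [PreservesFiniteColimits G] (α : F ⟶ G) (n : ℕ) :
    ∀ {X Y : C} (x : Ext.{w} X Y n),
      (x.mapExactFunctor F).comp (Ext.mk₀ (α.app Y)) (add_zero n) =
        (Ext.mk₀ (α.app X)).comp (x.mapExactFunctor G) (zero_add n) := by
  induction n with
  | zero =>
    intro X Y x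
    obtain ⟨f, rfl⟩ := (Ext.mk₀_bijective X Y).2 x
    rw [Ext.mapExactFunctor_mk₀, Ext.mapExactFunctor_mk₀, Ext.mk₀_comp_mk₀, Ext.mk₀_comp_mk₀,
      α.naturality]
  | succ n ih =>
    intro X Y x
    obtain ⟨X', p, hp, y, rfl⟩ := exists_factor x
    have h1 := ShortComplex.ShortExact.extClass_naturality ((kerSeq_exact p).map_of_exact F)
      ((kerSeq_exact p).map_of_exact G) (ShortComplex.mapNatTrans (kerSeq p) α)
    have h2 := ih y
    have e1 : ((kerSeq_exact p).extClass.comp y (add_comm 1 n)).mapExactFunctor F =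
        ((kerSeq_exact p).map_of_exact F).extClass.comp (y.mapExactFunctor F) (add_comm 1 n) := by
      rw [Ext.mapExactFunctor_comp, Ext.mapExactFunctor_extClass]
    have e2 : ((kerSeq_exact p).extClass.comp y (add_comm 1 n)).mapExactFunctor G =
        ((kerSeq_exact p).map_of_exact G).extClass.comp (y.mapExactFunctor G) (add_comm 1 n) := by
      rw [Ext.mapExactFunctor_comp, Ext.mapExactFunctor_extClass]
    refine (congrArg (fun z => Ext.comp z (Ext.mk₀ (α.app Y)) (add_zero (n + 1))) e1).trans ?_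
    refine Eq.trans ?_ (congrArg (fun z => (Ext.mk₀ (α.app X)).comp z (zero_add (n + 1))) e2).symm
    refine (Ext.comp_assoc _ _ _ (add_comm 1 n) (add_zero n) (by lia)).trans ?_
    refine (congrArg (fun z => Ext.comp ((kerSeq_exact p).map_of_exact F).extClass z
      (add_comm 1 n)) h2).trans ?_
    refine (Ext.comp_assoc _ _ _ (add_zero 1) (zero_add n) (by lia)).symm.trans ?_
    refine (congrArg (fun z => Ext.comp z (y.mapExactFunctor G) (add_comm 1 n)) h1).trans ?_
    exact Ext.comp_assoc _ _ _ (zero_add 1) (add_comm 1 n) (by lia)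

/-- The identity functor acts as the identity. -/
theorem map_id (n : ℕ) : ∀ {X Y : C} (x : Ext.{w} X Y n), x.mapExactFunctor (𝟭 C) = x := by
  induction n with
  | zero =>
    intro X Y x
    obtain ⟨f, rfl⟩ := (Ext.mk₀_bijective X Y).2 x
    exact Ext.mapExactFunctor_mk₀ (𝟭 C) f
  | succ n ih =>
    intro X Y x
    obtain ⟨X', p, hp, y, rfl⟩ := exists_factor x
    refine (Ext.mapExactFunctor_comp (𝟭 C) _ _ (add_comm 1 n)).trans ?_
    refine (congrArg (fun z => Ext.comp z (y.mapExactFunctor (𝟭 C)) (add_comm 1 n))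
      (Ext.mapExactFunctor_extClass (𝟭 C) (kerSeq_exact p))).trans ?_
    exact congrArg (fun z => (kerSeq_exact p).extClass.comp z (add_comm 1 n)) (ih y)

/-- The composition of exact functors. -/
theorem map_comp (F : C ⥤ D) (G : D ⥤ E) [F.Additive] [PreservesFiniteLimits F]
    [PreservesFiniteColimits F] [G.Additive] [PreservesFiniteLimits G] [PreservesFiniteColimits G]
    [(F ⋙ G).Additive] [PreservesFiniteLimits (F ⋙ G)] [PreservesFiniteColimits (F ⋙ G)] (n : ℕ) :
    ∀ {X Y : C} (x : Ext.{w} X Y n),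
      x.mapExactFunctor (F ⋙ G) = (x.mapExactFunctor F).mapExactFunctor G := by
  induction n with
  | zero =>
    intro X Y x
    obtain ⟨f, rfl⟩ := (Ext.mk₀_bijective X Y).2 x
    refine (Ext.mapExactFunctor_mk₀ (F ⋙ G) f).trans ?_
    refine Eq.trans ?_ (congrArg (fun z => Ext.mapExactFunctor G z)
      (Ext.mapExactFunctor_mk₀ F f)).symm
    exact (Ext.mapExactFunctor_mk₀ G (F.map f)).symm
  | succ n ih =>
    intro X Y x
    obtain ⟨X', p, hp, y, rfl⟩ := exists_factor x
    refine (Ext.mapExactFunctor_comp (F ⋙ G) _ _ (add_comm 1 n)).trans ?_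
    refine (congrArg (fun z => Ext.comp z (y.mapExactFunctor (F ⋙ G)) (add_comm 1 n))
      (Ext.mapExactFunctor_extClass (F ⋙ G) (kerSeq_exact p))).trans ?_
    refine Eq.trans ?_ (congrArg (fun z => Ext.mapExactFunctor G z)
      (Ext.mapExactFunctor_comp F _ _ (add_comm 1 n))).symm
    refine Eq.trans ?_ (Ext.mapExactFunctor_comp G _ _ (add_comm 1 n)).symm
    refine Eq.trans ?_ (congrArg (fun z => Ext.comp (Ext.mapExactFunctor G z)
      ((y.mapExactFunctor F).mapExactFunctor G) (add_comm 1 n))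
      (Ext.mapExactFunctor_extClass F (kerSeq_exact p))).symm
    refine Eq.trans ?_ (congrArg (fun z => Ext.comp z
      ((y.mapExactFunctor F).mapExactFunctor G) (add_comm 1 n))
      (Ext.mapExactFunctor_extClass G ((kerSeq_exact p).map_of_exact F))).symm
    exact congrArg (fun z => Ext.comp ((kerSeq_exact p).map_of_exact (F ⋙ G)).extClass z
      (add_comm 1 n)) (ih y)

/-- If the identity functor of `C` is naturally a direct summand of `F ⋙ G`, where `F : C ⥤ D` and
`G : D ⥤ C` are exact, then the vanishing of the groups `Ext^n` of `D` implies the one of the groups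
`Ext^n` of `C`. -/
theorem vanish_of_retract (F : C ⥤ D) (G : D ⥤ C) [F.Additive] [PreservesFiniteLimits F]
    [PreservesFiniteColimits F] [G.Additive] [PreservesFiniteLimits G] [PreservesFiniteColimits G]
    (η : 𝟭 C ⟶ F ⋙ G) (r : F ⋙ G ⟶ 𝟭 C) (h : η ≫ r = 𝟙 _) {n : ℕ}
    (hD : ∀ X Y : D, ∀ x : Ext.{w'} X Y n, x = 0) (X Y : C) (x : Ext.{w} X Y n) : x = 0 := by
  have h1 : x.mapExactFunctor (F ⋙ G) = 0 := by
    rw [map_comp, hD _ _ (x.mapExactFunctor F)]
    exact Ext.mapExactFunctor_zero G _ _ n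
  have h2 := map_nat (𝟭 C) (F ⋙ G) η n x
  have h3 : x.comp (Ext.mk₀ (η.app Y)) (add_zero n) = 0 := by
    refine Eq.trans (congrArg (fun z => Ext.comp z (Ext.mk₀ (η.app Y)) (add_zero n))
      (map_id n x).symm) (h2.trans ?_)
    refine (congrArg (fun z => Ext.comp (Ext.mk₀ (η.app X)) z (zero_add n)) h1).trans ?_
    exact Ext.comp_zero _ _ _ _ _
  have h4 : η.app Y ≫ r.app Y = 𝟙 Y := by
    have := congrArg (fun z => NatTrans.app z Y) h
    exact this
  calc x = x.comp (Ext.mk₀ (𝟙 Y)) (add_zero n) := (Ext.comp_mk₀_id x).symm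
    _ = x.comp (Ext.mk₀ (η.app Y ≫ r.app Y)) (add_zero n) := by rw [h4]
    _ = x.comp ((Ext.mk₀ (η.app Y)).comp (Ext.mk₀ (r.app Y)) (zero_add 0)) (add_zero n) := by
      rw [Ext.mk₀_comp_mk₀]
    _ = (x.comp (Ext.mk₀ (η.app Y)) (add_zero n)).comp (Ext.mk₀ (r.app Y)) (add_zero n) := by
      rw [Ext.comp_assoc_of_third_deg_zero]
    _ = 0 := by
      refine (congrArg (fun z => Ext.comp z (Ext.mk₀ (r.app Y)) (add_zero n)) h3).trans ?_
      simp only [Ext.zero_comp]

/-- For an adjunction between exact functors, `Ext^n(F X, Y) = 0` if `Ext^n(X, G Y) = 0`. -/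
theorem vanish_of_adj (F : C ⥤ D) (G : D ⥤ C) [F.Additive] [PreservesFiniteLimits F]
    [PreservesFiniteColimits F] [G.Additive] [PreservesFiniteLimits G] [PreservesFiniteColimits G]
    (adj : F ⊣ G) {n : ℕ} (X : C) (Y : D)
    (h : ∀ y : Ext.{w} X (G.obj Y) n, y = 0) (x : Ext.{w'} (F.obj X) Y n) : x = 0 := by
  have h1 : (Ext.mk₀ (adj.unit.app X)).comp (x.mapExactFunctor G) (zero_add n) = 0 := h _
  have h2 : (Ext.mk₀ (F.map (adj.unit.app X))).comp
      ((x.mapExactFunctor G).mapExactFunctor F) (zero_add n) = 0 := by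
    have := congrArg (fun z => Ext.mapExactFunctor F z) h1
    refine Eq.trans ?_ (this.trans (Ext.mapExactFunctor_zero F _ _ n))
    refine Eq.trans ?_ (Ext.mapExactFunctor_comp F _ _ (zero_add n)).symm
    rw [Ext.mapExactFunctor_mk₀]
  have h3 := map_nat (G ⋙ F) (𝟭 D) adj.counit n x
  have h4 : ((x.mapExactFunctor G).mapExactFunctor F).comp (Ext.mk₀ (adj.counit.app Y))
      (add_zero n) = (Ext.mk₀ (adj.counit.app (F.obj X))).comp x (zero_add n) := by
    refine Eq.trans ?_ (h3.trans (congrArg (fun z => Ext.comp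
      (Ext.mk₀ (adj.counit.app (F.obj X))) z (zero_add n)) (map_id n x)))
    exact congrArg (fun z => Ext.comp z (Ext.mk₀ (adj.counit.app Y)) (add_zero n))
      (map_comp G F n x).symm
  have h5 := adj.left_triangle_components X
  calc x = (Ext.mk₀ (𝟙 (F.obj X))).comp x (zero_add n) := (Ext.mk₀_id_comp x).symm
    _ = (Ext.mk₀ (F.map (adj.unit.app X) ≫ adj.counit.app (F.obj X))).comp x (zero_add n) := by
      rw [h5]
    _ = (Ext.mk₀ (F.map (adj.unit.app X))).comp
        ((Ext.mk₀ (adj.counit.app (F.obj X))).comp x (zero_add n)) (zero_add n) := by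
      rw [Ext.mk₀_comp_mk₀_assoc]
    _ = (Ext.mk₀ (F.map (adj.unit.app X))).comp
        (((x.mapExactFunctor G).mapExactFunctor F).comp (Ext.mk₀ (adj.counit.app Y))
          (add_zero n)) (zero_add n) := by rw [h4]
    _ = ((Ext.mk₀ (F.map (adj.unit.app X))).comp
        ((x.mapExactFunctor G).mapExactFunctor F) (zero_add n)).comp
          (Ext.mk₀ (adj.counit.app Y)) (add_zero n) := by
      rw [Ext.comp_assoc_of_third_deg_zero]
    _ = 0 := by
      refine (congrArg (fun z => Ext.comp z (Ext.mk₀ (adj.counit.app Y)) (add_zero n)) h2).trans ?_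
      simp only [Ext.zero_comp]

end

end Pool.Agent.X264.EX
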