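import Pool.Agent.X264.EX.Defs
import Pool.Agent.X264.EX.Nat

/-!
# Cohomological dimension of families of abelian categories
-/

set_option autoImplicit false
set_option backward.isDefEq.respectTransparency false
set_option backward.defeqAttrib.useBackward true

open CategoryTheory Limits Abelian

namespace Pool.Agent.X264.EX

universe t v u

section

variable {C : Type u} [Category.{v} C] [Abelian C]

lemma ExtZero.of_retract {D : Type u} [Category.{v} D] [Abelian D] (F : C ⥤ D) (G : D ⥤ C)
    (hF : IsExactFunctor F) (hG : IsExactFunctor G) (h : IdIsSummand (F ⋙ G)) {n : ℕ}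
    (hD : ∀ X Y : D, ExtZero X Y n) (X Y : C) : ExtZero X Y n := by
  let i1 : HasExt.{max u v} C := HasExt.standard C
  let i2 : HasExt.{max u v} D := HasExt.standard D
  have := hF.additive
  have := hF.limits
  have := hF.colimits
  have := hG.additive
  have := hG.limits
  have := hG.colimits
  obtain ⟨η, r, hr⟩ := h
  exact fun x => vanish_of_retract F G η r hr (fun X Y x => hD X Y x) X Y x

lemma ExtZero.of_adj (F G : C ⥤ C) (hF : IsExactFunctor F) (hG : IsExactFunctor G) (adj : F ⊣ G)
    {n : ℕ} (X Y : C) (h : ExtZero X (G.obj Y) n) : ExtZero (F.obj X) Y n := by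
  let i1 : HasExt.{max u v} C := HasExt.standard C
  have := hF.additive
  have := hF.limits
  have := hF.colimits
  have := hG.additive
  have := hG.limits
  have := hG.colimits
  exact fun x => vanish_of_adj F G adj X Y (fun y => h y) x

lemma ExtZero.of_iso {X X' Y : C} (e : X ≅ X') {n : ℕ} (h : ExtZero X Y n) : ExtZero X' Y n := by
  let i1 : HasExt.{max u v} C := HasExt.standard C
  intro x
  have h1 : (Ext.mk₀ e.hom).comp x (zero_add n) = 0 := h _
  have h2 : (Ext.mk₀ e.inv).comp ((Ext.mk₀ e.hom).comp x (zero_add n)) (zero_add n) = x := by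
    rw [Ext.mk₀_comp_mk₀_assoc, e.inv_hom_id, Ext.mk₀_id_comp]
  rw [← h2, h1, Ext.comp_zero]

lemma ExtZero.of_isZero {X Y : C} (hY : IsZero Y) (n : ℕ) : ExtZero X Y n := by
  let i1 : HasExt.{max u v} C := HasExt.standard C
  intro x
  have h : (𝟙 Y : Y ⟶ Y) = 0 := hY.eq_of_src _ _
  rw [← Ext.comp_mk₀_id x, h, Ext.mk₀_zero, Ext.comp_zero]

lemma ExtZero.of_shortExact {X : C} {S : ShortComplex C} (hS : S.ShortExact) {n : ℕ}
    (h1 : ExtZero X S.X₁ n) (h3 : ExtZero X S.X₃ n) : ExtZero X S.X₂ n := by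
  let i1 : HasExt.{max u v} C := HasExt.standard C
  intro x
  obtain ⟨y, hy⟩ := Ext.covariant_sequence_exact₂ X hS x (h3 _)
  rw [← hy, h1 y, Ext.zero_comp]

lemma ExtZero.of_finiteLength {X : C} {n : ℕ} (h : ∀ W : C, Simple W → ExtZero X W n) (Y : C)
    (hY : FiniteLength Y) : ExtZero X Y n := by
  induction hY with
  | zero W hW => exact ExtZero.of_isZero hW n
  | ext S hS h1 _ ih => exact ExtZero.of_shortExact hS (h _ h1) ih

/-- If the exact functor `w` has a natural transformation to the identity which is an isomorphism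
at `X`, and `w Y = 0`, then `Ext^n(X, Y) = 0`. -/
lemma ExtZero.of_weight (w : C ⥤ C) (hw : IsExactFunctor w) (ι : w ⟶ 𝟭 C) {X Y : C}
    (hX : IsIso (ι.app X)) (hY : IsZero (w.obj Y)) (n : ℕ) : ExtZero X Y n := by
  let i1 : HasExt.{max u v} C := HasExt.standard C
  have := hw.additive
  have := hw.limits
  have := hw.colimits
  intro x
  have h1 : x.mapExactFunctor w = 0 := ExtZero.of_isZero hY n _
  have h2 := map_nat w (𝟭 C) ι n x
  have h3 : (Ext.mk₀ (ι.app X)).comp x (zero_add n) = 0 := by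
    refine Eq.trans ?_ (h2.symm.trans ?_)
    · exact congrArg (fun z => Ext.comp (Ext.mk₀ (ι.app X)) z (zero_add n)) (map_id n x).symm
    · refine (congrArg (fun z => Ext.comp z (Ext.mk₀ (ι.app Y)) (add_zero n)) h1).trans ?_
      simp only [Ext.zero_comp]
  have h4 : (Ext.mk₀ (inv (ι.app X))).comp ((Ext.mk₀ (ι.app X)).comp x (zero_add n))
      (zero_add n) = x := by
    rw [Ext.mk₀_comp_mk₀_assoc, IsIso.inv_hom_id]
    exact Ext.mk₀_id_comp x
  rw [← h4, h3, Ext.comp_zero]

end

namespace Family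

variable {K : Type t} [Preorder K] {T : Family.{t, v, u} K}

lemma vanish_iff_of_le (hT : T.IsMixed) {k L : K} (h : k ≤ L) (n : ℕ) :
    T.Vanish k n ↔ T.Vanish L n := by
  constructor
  · intro hk V W
    exact ExtZero.of_retract (T.Ind h) (T.Res h) (hT.induction.ind_exact h)
      (hT.induction.res_exact h) (hT.induction.res_ind h) hk V W
  · intro hL V W
    exact ExtZero.of_retract (T.Res h) (T.Ind h) (hT.induction.res_exact h)
      (hT.induction.ind_exact h) (hT.induction.ind_res h) hL V W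

/-- The cohomological dimension does not depend on the field. -/
theorem vanish_iff (hT : T.IsMixed) (hK : ∀ k k' : K, ∃ L, k ≤ L ∧ k' ≤ L) (k k' : K) (n : ℕ) :
    T.Vanish k n ↔ T.Vanish k' n := by
  obtain ⟨L, h, h'⟩ := hK k k'
  rw [vanish_iff_of_le hT h, vanish_iff_of_le hT h']

lemma vanish_two_iff (hT : T.IsMixed) (k : K) : T.Vanish k 2 ↔ T.SimpleVanish k := by
  constructor
  · intro h W _ _
    exact h _ _
  · intro h V W
    obtain ⟨adj⟩ := hT.rigid.adj V
    obtain ⟨e⟩ := hT.rigid.unit V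
    refine ExtZero.of_iso e (ExtZero.of_adj _ _ (hT.rigid.exact V) (hT.rigid.exact _) adj _ _ ?_)
    refine ExtZero.of_finiteLength ?_ _ (hT.finite _)
    intro U hU
    obtain ⟨m, hm⟩ := hT.weights.simple U hU
    by_cases h0 : 0 < m
    · exact ExtZero.of_weight (T.w k) (hT.weights.exact k) (T.ι k) (hT.weights.unit k)
        (hT.weights.pos U m h0 hm) 2
    · exact h U hU ⟨m, by omega, hm⟩

theorem all_iff (hT : T.IsMixed) (hK : ∀ k k' : K, ∃ L, k ≤ L ∧ k' ≤ L) (k₀ : K) :
    (∀ (k : K) (n : ℕ), 2 ≤ n → T.Vanish k n) ↔ T.SimpleVanish k₀ := by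
  constructor
  · intro h
    exact (vanish_two_iff hT k₀).mp (h k₀ 2 le_rfl)
  · intro h k n hn
    have h2 : T.Vanish k 2 := (vanish_iff hT hK k₀ k 2).mp ((vanish_two_iff hT k₀).mpr h)
    intro V W
    let i1 : HasExt.{max u v} (T.Cat k) := HasExt.standard (T.Cat k)
    exact vanish_of_le hn (fun X Y x => h2 X Y x) V W

end Family

end Pool.Agent.X264.EX
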